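import Mathlib
import Pool.Agent.MarkusYamabe.JacobianCont

/-!
# The nonuniform nonautonomous Markus-Yamabe conjecture holds in every dimension

For every finite-dimensional real normed space `E` (that is, `ℝⁿ` with an arbitrary norm) and every
`f : [0,∞) × E → E` satisfying (G1), (G2), (G3), the trivial solution of `x' = f(t, x)` is globally
nonuniformly asymptotically stable. The definitions are in `Pool/Agent/MarkusYamabe/Defs.lean`.
-/

namespace Pool.Agent.Results.MP_1775bc_an.MarkusYamabeNonautonomous

open Pool.Agent.MarkusYamabe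

theorem result (E : Type*) [NormedAddCommGroup E] [NormedSpace ℝ E] [FiniteDimensional ℝ E]
    (f : ℝ → E → E) (h1 : CondG1 f) (h2 : CondG2 f) (h3 : CondG3 f) :
    GloballyNonuniformlyAsymptoticallyStable f := by
  haveI : CompleteSpace E := FiniteDimensional.complete ℝ E
  have hJ := continuous_Jt h1 (fun ω hω => (h3 ω hω).1)
  intro t₀ ht₀
  exact ⟨fun η hη => stable hJ h1 h2 h3 ht₀ hη, fun x hx => attractive hJ h1 h2 h3 ht₀ hx⟩

end Pool.Agent.Results.MP_1775bc_an.MarkusYamabeNonautonomous
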